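import Pool.Agent.H98.EX.LTargets
import Pool.Agent.H98.EX.WTargets

/-!
The copolymer, exact constant, lower half: the choice of the size of the cells (row CHL).
-/

set_option autoImplicit false

open MeasureTheory ProbabilityTheory Filter Topology
open Pool.Agent.H95 Pool.Agent.H95.Cop
open Pool.Agent.H55.CG (VV Mo)
open Pool.Agent.H98.EX

namespace Pool.Agent.H95.EXL

/-- the bound of `P0` -/
noncomputable def BB (u t : ℝ) : ℝ :=
  6 * t ^ (1 / 4 : ℝ) + u ^ (-(1 / 4) : ℝ) *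
    (2 ^ 17 * 64 ^ 2 * ((t⁻¹ / 64) ^ 2 * Real.exp (-(t⁻¹ / 64))))

theorem BB_tendsto (u : ℝ) : Tendsto (fun t => BB u t) (𝓝[>] (0 : ℝ)) (𝓝 0) := by
  have h1 : Tendsto (fun t : ℝ => t ^ (1 / 4 : ℝ)) (𝓝[>] (0 : ℝ)) (𝓝 0) := by
    have h := (Real.continuous_rpow_const (q := 1 / 4) (by norm_num)).tendsto 0
    rw [Real.zero_rpow (by norm_num)] at h
    exact h.mono_left nhdsWithin_le_nhds
  have h2 : Tendsto (fun t : ℝ => t⁻¹ / 64) (𝓝[>] (0 : ℝ)) atTop :=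
    tendsto_inv_nhdsGT_zero.atTop_div_const (by norm_num)
  have h3 := (Real.tendsto_pow_mul_exp_neg_atTop_nhds_zero 2).comp h2
  have h4 := (h1.const_mul 6).add ((h3.const_mul (2 ^ 17 * 64 ^ 2)).const_mul
    (u ^ (-(1 / 4) : ℝ)))
  simp only [mul_zero, add_zero] at h4
  exact h4

theorem P0_le {u t : ℝ} (hu : 0 < u) (ht : 0 < t) :
    P0 t u ⌈t ^ (-2 : ℝ)⌉₊ ≤ BB u t := by
  unfold P0 BB
  have h0 : (0 : ℝ) < u ^ (-(1 / 4) : ℝ) := Real.rpow_pos_of_pos hu _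
  have h1 : t⁻¹ / 64 ≤ t * (⌈t ^ (-2 : ℝ)⌉₊ : ℝ) / 64 := by
    have h2 := Nat.le_ceil (t ^ (-2 : ℝ))
    have h3 : t ^ (-2 : ℝ) = t⁻¹ * t⁻¹ := by
      rw [Real.rpow_neg ht.le, ← mul_inv]
      norm_num [sq]
    rw [h3] at h2
    have h4 : t * (t⁻¹ * t⁻¹) = t⁻¹ := by
      field_simp
    have h5 := mul_le_mul_of_nonneg_left h2 ht.le
    rw [h4] at h5
    rw [h3]
    linarith
  have h2 : Real.exp (-(t * (⌈t ^ (-2 : ℝ)⌉₊ : ℝ) / 64)) ≤ Real.exp (-(t⁻¹ / 64)) := by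
    apply Real.exp_le_exp.2
    linarith
  have h3 : 2 ^ 17 / t ^ 2 * Real.exp (-(t * (⌈t ^ (-2 : ℝ)⌉₊ : ℝ) / 64)) ≤
      2 ^ 17 * 64 ^ 2 * ((t⁻¹ / 64) ^ 2 * Real.exp (-(t⁻¹ / 64))) := by
    have h4 : 2 ^ 17 * 64 ^ 2 * ((t⁻¹ / 64) ^ 2 * Real.exp (-(t⁻¹ / 64))) =
        2 ^ 17 / t ^ 2 * Real.exp (-(t⁻¹ / 64)) := by
      field_simp
    rw [h4]
    exact mul_le_mul_of_nonneg_left h2 (by positivity)
  have h4 := mul_le_mul_of_nonneg_left h3 h0.le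
  linarith

theorem pf_CHL (hQQB : T_QQB) : T_CHL := by
  intro e he0 he1
  -- the choice of `u`
  have hc : Continuous fun u : ℝ =>
      Real.sqrt (1 - 8 * u) * (1 - 2 * u) * (1 - u) ^ 2 - e * (1 + u) := by fun_prop
  have h1 := hc.tendsto 0
  have h2 : ∀ᶠ u in 𝓝 (0 : ℝ), 0 <
      Real.sqrt (1 - 8 * u) * (1 - 2 * u) * (1 - u) ^ 2 - e * (1 + u) := by
    apply h1.eventually (lt_mem_nhds _)
    simp only [mul_zero, sub_zero, Real.sqrt_one, one_pow, mul_one, add_zero]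
    linarith
  have h3 : ∀ᶠ u in 𝓝 (0 : ℝ), u < 1 / 64 := gt_mem_nhds (by norm_num)
  have h4 : ∀ᶠ u in 𝓝 (0 : ℝ), u < 1 - e := gt_mem_nhds (by linarith)
  obtain ⟨u, ⟨⟨⟨hu1, hu2⟩, hu3⟩, hu0⟩⟩ := (((h2.and h3).and h4).filter_mono
    (nhdsWithin_le_nhds (s := Set.Ioi 0)) |>.and self_mem_nhdsWithin).exists
  have hu0' : 0 < u := hu0
  obtain ⟨Q, t0, ht0, hQ⟩ := hQQB u hu0'
  -- the choice of `ϑ`
  have h5 : Tendsto (fun t : ℝ => Real.exp (-(3 / 2 * t ^ (1 / 4 : ℝ))) *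
      (Real.sqrt (1 - 8 * u) * (1 - 2 * u) *
        ((1 - u) ^ 2 - 8 * Real.pi * Real.sqrt (BB u t))) - e * (1 + u)) (𝓝[>] (0 : ℝ))
      (𝓝 (Real.sqrt (1 - 8 * u) * (1 - 2 * u) * (1 - u) ^ 2 - e * (1 + u))) := by
    have h6 : Tendsto (fun t : ℝ => Real.exp (-(3 / 2 * t ^ (1 / 4 : ℝ)))) (𝓝[>] (0 : ℝ))
        (𝓝 1) := by
      have h := (Real.continuous_rpow_const (q := 1 / 4) (by norm_num)).tendsto 0
      rw [Real.zero_rpow (by norm_num)] at h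
      have h' := (Real.continuous_exp.tendsto _).comp
        ((h.mono_left (nhdsWithin_le_nhds (s := Set.Ioi 0))).const_mul (3 / 2)).neg
      simpa [Function.comp_def] using h'
    have h7 : Tendsto (fun t : ℝ => Real.sqrt (BB u t)) (𝓝[>] (0 : ℝ)) (𝓝 0) := by
      have := (Real.continuous_sqrt.tendsto 0).comp (BB_tendsto u)
      simpa [Function.comp_def] using this
    have h8 := ((h6.mul (((h7.const_mul (8 * Real.pi)).const_sub ((1 - u) ^ 2)).const_mul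
      (Real.sqrt (1 - 8 * u) * (1 - 2 * u)))).sub_const (e * (1 + u)))
    simpa using h8
  have h6 := h5.eventually (lt_mem_nhds hu1)
  have h7 : ∀ᶠ t in 𝓝[>] (0 : ℝ), t < 1 / 2 ^ 12 :=
    (gt_mem_nhds (by norm_num)).filter_mono nhdsWithin_le_nhds
  have h8 : ∀ᶠ t in 𝓝[>] (0 : ℝ), t < t0 := (gt_mem_nhds ht0).filter_mono nhdsWithin_le_nhds
  obtain ⟨t, ⟨⟨⟨ht1, ht2⟩, ht3⟩, ht4⟩⟩ := (((h6.and h7).and h8).and self_mem_nhdsWithin).exists
  have ht4' : 0 < t := ht4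
  have htinv : (t⁻¹ * t⁻¹ : ℝ) = t ^ (-2 : ℝ) := by
    rw [Real.rpow_neg ht4'.le, ← mul_inv]
    norm_num [sq]
  have ht5 : (2 : ℝ) ≤ t⁻¹ := by
    rw [le_inv_comm₀ (by norm_num) ht4']
    refine ht2.le.trans (by norm_num)
  set R : ℕ := ⌈t ^ (-2 : ℝ)⌉₊ with hR
  have hR1 : t ^ (-2 : ℝ) ≤ R := Nat.le_ceil _
  have hR2 : 2 ≤ R := by
    have : (2 : ℝ) ≤ R := by
      refine le_trans ?_ hR1
      rw [← htinv]
      nlinarith
    exact_mod_cast this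
  have hR3 : t ^ (-(3 / 2) : ℝ) ≤ R := by
    refine le_trans ?_ hR1
    apply Real.rpow_le_rpow_of_exponent_ge ht4' (by linarith [ht2]) (by norm_num)
  obtain ⟨τ, hτ0, hτ⟩ := hQ t ht4' ht3 R hR3
  refine ⟨u, u, t, u, τ, R, Q, hu0', by linarith, hu0', by linarith, ht4', ht2.le, hu0', hu2.le,
    by linarith, hR2, hτ0, ?_, ?_⟩
  · have hP := P0_le hu0' ht4'
    rw [← hR] at hP
    have hP' := Real.sqrt_le_sqrt hP
    have hcc : Real.sqrt (cc u t) = Real.sqrt 2 * (Real.sqrt (1 - 8 * u) *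
        Real.exp (-(3 / 2 * t ^ (1 / 4 : ℝ)))) := by
      unfold cc
      rw [mul_assoc, Real.sqrt_mul (by norm_num), Real.sqrt_mul (by linarith)]
      congr 2
      rw [← Real.exp_half]
      congr 1
      ring
    have hpi := Real.pi_pos
    have hs2 : 0 < Real.sqrt 2 := Real.sqrt_pos.2 (by norm_num)
    have hE := Real.exp_pos (-(3 / 2 * t ^ (1 / 4 : ℝ)))
    have hrw : Real.sqrt (cc u t) / (1 + u) * (4 * (1 - 2 * u) / t) *
        ((1 - u) ^ 2 * (t / (8 * Real.pi)) - Real.sqrt (P0 t u R) * t) =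
        (Real.sqrt 2 / (2 * Real.pi)) * ((Real.exp (-(3 / 2 * t ^ (1 / 4 : ℝ))) *
      (Real.sqrt (1 - 8 * u) * (1 - 2 * u) *
        ((1 - u) ^ 2 - 8 * Real.pi * Real.sqrt (P0 t u R)))) / (1 + u)) := by
      rw [hcc]
      have : (1 + u) ≠ 0 := by linarith
      field_simp
      ring
    rw [hrw, mul_comm e]
    apply mul_lt_mul_of_pos_left _ (by positivity)
    rw [lt_div_iff₀ (by linarith)]
    have hmono : Real.exp (-(3 / 2 * t ^ (1 / 4 : ℝ))) *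
      (Real.sqrt (1 - 8 * u) * (1 - 2 * u) *
        ((1 - u) ^ 2 - 8 * Real.pi * Real.sqrt (BB u t))) ≤
        Real.exp (-(3 / 2 * t ^ (1 / 4 : ℝ))) *
      (Real.sqrt (1 - 8 * u) * (1 - 2 * u) *
        ((1 - u) ^ 2 - 8 * Real.pi * Real.sqrt (P0 t u R))) := by
      apply mul_le_mul_of_nonneg_left _ hE.le
      apply mul_le_mul_of_nonneg_left _ (mul_nonneg (Real.sqrt_nonneg _) (by linarith))
      have := mul_le_mul_of_nonneg_left hP' (by positivity : (0 : ℝ) ≤ 8 * Real.pi)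
      linarith
    linarith
  · intro ρ _ hρ hρ' θ hθ
    obtain ⟨h9, _, h10⟩ := hτ ρ hρ hρ' θ hθ
    exact ⟨h9, h10⟩

end Pool.Agent.H95.EXL
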