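import Pool.Agent.H95.EXL.MUX

/-!
The copolymer, exact constant, lower half: the densities of the first level (row DNX).
-/

set_option autoImplicit false

open MeasureTheory ProbabilityTheory Filter Topology
open Pool.Agent.H95 Pool.Agent.H95.Cop
open Pool.Agent.H55.CG (VV Mo)
open Pool.Agent.H98.EX

namespace Pool.Agent.H95.EXL

theorem Pb_nonneg {ϑ β ζ η ε δ τ s : ℝ} {n R D : ℕ} (h1 : 0 < ϑ) (h2 : 0 < η) :
    0 ≤ Pb ϑ β ζ η ε δ τ s n R D := by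
  unfold Pb
  have := Real.rpow_pos_of_pos h2 (-(1 / 4))
  have := Real.rpow_pos_of_pos h1 (1 / 4)
  positivity

open Classical in
/-- DNX -/
theorem pf_DNX (hTLQ : Pool.Agent.H98.SLN.T_TLQ) (_hYSM : T_YSM) (hMGL : T_MGL) (hWXD : T_WXD)
    (hSPX : T_SPX) (hBAX : T_BAX) (hDNP : T_DNP) (hCNX : T_CNX) (hMUX : T_MUX) : T_DNX := by
  intro K ν α c δ r ϑ ε τ β ζ η k q n R D J h s hs0 hs1 hβ1 X hX0 hX j hj3 hjJ
  have hRG := h.rx.rg
  have hprob := h.lm.eg.prob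
  have hk : 1 ≤ k := (hTLQ K α c δ k q hRG).1
  have hϑ1 : ϑ ≤ 1 := h.ϑ1.trans (by norm_num)
  set g : ℝ := 1 / (1 + α) with hg
  obtain ⟨hg1, hg2, hg3⟩ := gam_bounds hRG.δ0 hRG.δ1 hRG.α0 hRG.α1
  rw [← hg] at hg1 hg2 hg3
  have hδ2 : δ ≤ 1 / 4 := hRG.δ1.trans (by norm_num)
  obtain ⟨hM1, -, -, -⟩ := hMGL ν k ϑ ε τ h.lm.eg hk h.ϑ0 h.ε0 g δ hRG.δ0.le hδ2 hg1 hg2
  obtain ⟨hmw, hml, -, -, hdet⟩ :=
    hWXD K α c δ r ϑ β k q h.rx h.kr h.r1 h.ϑ0 h.ϑ1 h.β0 n D J h.D2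
  obtain ⟨hc0, hc2⟩ := cc_bounds h.rx.r0 h.r1 h.ϑ0
  obtain ⟨j1, -, -, -⟩ := hMUX K ν α c δ r ϑ ε τ β ζ η k q n R D J h
  rw [← hg] at j1
  have hη := h.η0
  have hβ := h.β0
  have hϑ := h.ϑ0
  have hjR : (j : ℝ) ≤ J := by exact_mod_cast hjJ
  have hj0 : (0 : ℝ) ≤ j := Nat.cast_nonneg _
  have hA0 : 0 ≤ cc r ϑ ^ g / (1 + η) := by positivity
  have hP0 : 0 ≤ Pb ϑ β ζ η ε δ τ s n R D := Pb_nonneg hϑ hη
  -- the expectation of a share
  have hsh : ∀ p ∈ WS β ζ ϑ n R j,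
      Integrable (fun x : ℕ → ℝ => sh K k q ϑ β ζ η g n R x p.1 p.2) (iid ν) ∧
      Real.exp (-((1 / 2 + δ) * ε * (4 * β * ((j : ℝ) + 1))) - τ * D) * X ≤
        ∫ x : ℕ → ℝ, sh K k q ϑ β ζ η g n R x p.1 p.2 ∂(iid ν) := by
    intro p hp
    obtain ⟨h1, h2⟩ := hDNP K ν α c δ r ϑ ε τ β ζ η k q n R D J h j hj3 hjJ p hp _ hP0
      (hBAX K ν α c δ r ϑ ε τ β ζ η k q n R D J h s hs0 hs1 j hj3 hjJ p hp)
    refine ⟨h1, le_trans ?_ h2⟩
    rw [← hg]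
    have hp' := (Finset.mem_filter.1 hp).2
    obtain ⟨-, -, hp3, hp4⟩ := hp'
    have hlen0 : (0 : ℝ) ≤ (p.2 : ℝ) + 1 - p.1 := by
      refine le_trans ?_ hp3
      have := h.ζ0
      positivity
    have hlen : ((p.2 + 1 - p.1 : ℕ) : ℝ) = (p.2 : ℝ) + 1 - p.1 := by
      have h3 : p.1 ≤ p.2 + 1 := by
        have : (p.1 : ℝ) ≤ ((p.2 + 1 : ℕ) : ℝ) := by
          push_cast
          linarith
        exact_mod_cast this
      rw [Nat.cast_sub h3]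
      push_cast
      ring
    have h5 : ϑ * ((p.2 + 1 - p.1 : ℕ) : ℝ) ≤ 4 * β * ((j : ℝ) + 1) := by
      rw [hlen]
      have h6 := mul_le_mul_of_nonneg_left hp4 hϑ.le
      have h7 : ϑ * (4 * β * ((j : ℝ) + 1 - ζ) / ϑ) = 4 * β * ((j : ℝ) + 1 - ζ) := by
        field_simp
      rw [h7] at h6
      have := mul_pos hβ h.ζ0
      nlinarith
    have h6 : ((p.2 + 1 - p.1 : ℕ) : ℝ) ≤ D := by
      rw [hlen]
      refine hp4.trans (le_trans ?_ h.D1)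
      apply div_le_div_of_nonneg_right _ hϑ.le
      apply mul_le_mul_of_nonneg_left _ (by positivity)
      linarith [h.ζ0]
    have hmo : 0 < Real.exp (-((1 / 2 + δ) * ε * ϑ) - τ) := Real.exp_pos _
    have h7 : Real.exp (-((1 / 2 + δ) * ε * (4 * β * ((j : ℝ) + 1))) - τ * D) ≤
        Mo (rl ν k ϑ) g ^ (p.2 + 1 - p.1) := by
      calc Real.exp (-((1 / 2 + δ) * ε * (4 * β * ((j : ℝ) + 1))) - τ * D)
          ≤ Real.exp (((p.2 + 1 - p.1 : ℕ) : ℝ) * (-((1 / 2 + δ) * ε * ϑ) - τ)) := by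
            apply Real.exp_le_exp.2
            have h8 := mul_le_mul_of_nonneg_left h5
              (mul_nonneg (by linarith [hRG.δ0] : (0 : ℝ) ≤ 1 / 2 + δ) h.ε0)
            have h9 := mul_le_mul_of_nonneg_left h6 h.τ0
            nlinarith
        _ = Real.exp (-((1 / 2 + δ) * ε * ϑ) - τ) ^ (p.2 + 1 - p.1) := by
            rw [← Real.exp_nat_mul]
        _ ≤ _ := pow_le_pow_left₀ hmo.le hM1 _
    exact mul_le_mul h7 hX hX0 (pow_nonneg (hmo.le.trans hM1) _)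
  -- integration of the lower bound
  have hdom : ∀ x : ℕ → ℝ, cc r ϑ ^ g / (1 + η) *
      ∑ p ∈ WS β ζ ϑ n R j, sh K k q ϑ β ζ η g n R x p.1 p.2 ≤
      if lX K k q r ϑ β n D J x = j then wX K k q r ϑ β n D J x ^ g else 0 := by
    intro x
    have := hSPX K ν α c δ r ϑ ε τ β ζ η k q n R D J h j hj3 hjJ x
    rw [← hg] at this
    exact this
  have hI1 : Integrable (fun x : ℕ → ℝ => cc r ϑ ^ g / (1 + η) *
      ∑ p ∈ WS β ζ ϑ n R j, sh K k q ϑ β ζ η g n R x p.1 p.2) (iid ν) :=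
    (integrable_finsetSum _ fun p hp => (hsh p hp).1).const_mul _
  have hI2 : Integrable (fun x : ℕ → ℝ => if lX K k q r ϑ β n D J x = j then
      wX K k q r ϑ β n D J x ^ g else 0) (iid ν) := by
    refine j1.mono' ?_ (Filter.Eventually.of_forall fun x => ?_)
    · refine (Measurable.ite ?_ (hmw.pow_const g) measurable_const).aestronglyMeasurable
      exact measurableSet_eq_fun hml measurable_const
    · rw [Real.norm_eq_abs]
      have h0 := Real.rpow_nonneg (hdet x).1 g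
      split_ifs
      · rw [abs_of_nonneg h0]
      · rw [abs_zero]
        exact h0
  have hint := integral_mono hI1 hI2 hdom
  rw [integral_const_mul, integral_finsetSum _ fun p hp => (hsh p hp).1] at hint
  refine le_trans ?_ hint
  have hcn := hCNX β ζ ϑ n R D j hβ hϑ h.ζ0 h.ζ1 (by
    refine le_trans ?_ h.D1
    apply div_le_div_of_nonneg_right _ hϑ.le
    apply mul_le_mul_of_nonneg_left _ (by positivity)
    linarith) hβ1 h.Dn
  set E := Real.exp (-((1 / 2 + δ) * ε * (4 * β * ((j : ℝ) + 1))) - τ * D) with hE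
  have hE0 : 0 ≤ E := (Real.exp_pos _).le
  have hsum : ((WS β ζ ϑ n R j).card : ℝ) * (E * X) ≤
      ∑ p ∈ WS β ζ ϑ n R j, ∫ x : ℕ → ℝ, sh K k q ϑ β ζ η g n R x p.1 p.2 ∂(iid ν) := by
    rw [← nsmul_eq_mul, ← Finset.sum_const]
    exact Finset.sum_le_sum fun p hp => (hsh p hp).2
  calc cc r ϑ ^ g / (1 + η) * (((n : ℝ) - 2 * R - D) * (4 * β * (1 - 2 * ζ) / ϑ - 1)) * E * X
      = cc r ϑ ^ g / (1 + η) *
        ((((n : ℝ) - 2 * R - D) * (4 * β * (1 - 2 * ζ) / ϑ - 1)) * (E * X)) := by ring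
    _ ≤ cc r ϑ ^ g / (1 + η) * (((WS β ζ ϑ n R j).card : ℝ) * (E * X)) := by
        apply mul_le_mul_of_nonneg_left _ hA0
        exact mul_le_mul_of_nonneg_right hcn (mul_nonneg hE0 hX0)
    _ ≤ _ := mul_le_mul_of_nonneg_left hsum hA0

end Pool.Agent.H95.EXL
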