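import Pool.Agent.H98.EX.LTargets
import Pool.Agent.H98.EX.WTargets
import Pool.Agent.H18.SLN.EXQ

/-!
The copolymer, exact constant, lower half: the moments of the functional of a box (row MUX).
-/

set_option autoImplicit false

open MeasureTheory ProbabilityTheory Filter Topology
open Pool.Agent.H95 Pool.Agent.H95.Cop
open Pool.Agent.H55.CG (VV Mo)
open Pool.Agent.H98.EX

namespace Pool.Agent.H95.EXL

theorem gam_bounds {α δ : ℝ} (h0 : 0 < δ) (h1 : δ ≤ 1 / 2 ^ 20) (h2 : 1 - δ ≤ α) (h3 : α ≤ 1) :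
    1 / 2 ≤ 1 / (1 + α) ∧ 1 / (1 + α) ≤ 1 / 2 + δ / 2 ∧ 1 / (1 + α) ≤ 1 := by
  have hd : δ ≤ 1 := h1.trans (by norm_num)
  have hp : 0 < 1 + α := by linarith
  refine ⟨?_, ?_, ?_⟩
  · rw [div_le_div_iff₀ (by norm_num) hp]
    linarith
  · rw [div_le_iff₀ hp]
    nlinarith
  · rw [div_le_one hp]
    linarith

/-- exponential moments of the exponents -/
theorem exp_H (ρ : Measure ℝ) [IsProbabilityMeasure ρ]
    (hρ : ∀ t : ℝ, Integrable (fun z => Real.exp (t * z)) ρ) (u : ℝ) (a b : ℕ) :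
    Integrable (fun y : ℕ → ℝ => Real.exp (u * H y a (b + 1))) (iid ρ) ∧
    ∫ y : ℕ → ℝ, Real.exp (u * H y a (b + 1)) ∂(iid ρ) = Mo ρ u ^ (b + 1 - a) := by
  obtain ⟨h1, h2⟩ := Pool.Agent.H17.CG.pf_PRE ρ hρ
    (fun c => if c ∈ Finset.Ico a (b + 1) then u else 0) (b + 1)
  have e : ∀ x : ℕ → ℝ, u * H x a (b + 1) =
      ∑ c ∈ Finset.range (b + 1), (if c ∈ Finset.Ico a (b + 1) then u else 0) * x c := by
    intro x
    unfold H
    rw [Finset.mul_sum]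
    have hsub : Finset.Ico a (b + 1) ⊆ Finset.range (b + 1) := by
      intro c hc
      rw [Finset.mem_Ico] at hc
      exact Finset.mem_range.2 hc.2
    rw [← Finset.sum_subset hsub (f := fun c =>
      (if c ∈ Finset.Ico a (b + 1) then u else 0) * x c)]
    · exact Finset.sum_congr rfl fun c hc => by simp only [if_pos hc]
    · intro c _ hc
      simp only [if_neg hc, zero_mul]
  simp only [e]
  refine ⟨h1, ?_⟩
  rw [h2]
  have hz : Mo ρ 0 = 1 := by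
    unfold Mo
    simp
  have h3 : ∀ c, Mo ρ (if c ∈ Finset.Ico a (b + 1) then u else 0) =
      if c ∈ Finset.Ico a (b + 1) then Mo ρ u else 1 := by
    intro c
    split_ifs
    · rfl
    · exact hz
  simp only [h3]
  rw [← Finset.prod_filter, Finset.prod_const]
  congr 1
  have : (Finset.range (b + 1)).filter (fun c => c ∈ Finset.Ico a (b + 1)) =
      Finset.Ico a (b + 1) := by
    ext c
    simp only [Finset.mem_Ico, Finset.mem_filter, Finset.mem_range]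
    omega
  rw [this, Nat.card_Ico]

/-- exponential moments of the typical exponents -/
theorem exp_cX (hYSM : T_YSM) (ν : Measure ℝ) [IsProbabilityMeasure ν]
    (hν : ∀ t : ℝ, Integrable (fun z => Real.exp (t * z)) ν) {k : ℕ} (hk : 1 ≤ k) (ϑ u : ℝ)
    (a b : ℕ) :
    Integrable (fun x : ℕ → ℝ => Real.exp (u * cX k ϑ x a b)) (iid ν) ∧
    ∫ x : ℕ → ℝ, Real.exp (u * cX k ϑ x a b) ∂(iid ν) = Mo (rl ν k ϑ) u ^ (b + 1 - a) := by
  obtain ⟨hmp, hpr, hex, _, _⟩ := hYSM ν hν k ϑ hk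
  obtain ⟨h1, h2⟩ := exp_H (rl ν k ϑ) hex u a b
  have h3 : (fun x : ℕ → ℝ => Real.exp (u * cX k ϑ x a b)) =
      (fun y : ℕ → ℝ => Real.exp (u * H y a (b + 1))) ∘ yk k ϑ := rfl
  constructor
  · rw [h3]
    exact hmp.integrable_comp_of_integrable h1
  · rw [← h2, ← hmp.map_eq, integral_map hmp.measurable.aemeasurable]
    · rfl
    · rw [hmp.map_eq]
      exact h1.aestronglyMeasurable

theorem sum_rpow_le' {ι : Type*} (s : Finset ι) (f : ι → ℝ) (hf : ∀ i, 0 ≤ f i) {g : ℝ}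
    (hg0 : 0 < g) (hg1 : g ≤ 1) : (∑ i ∈ s, f i) ^ g ≤ ∑ i ∈ s, f i ^ g := by
  classical
  induction s using Finset.induction_on with
  | empty => simp [Real.zero_rpow hg0.ne']
  | insert a s ha ih =>
    rw [Finset.sum_insert ha, Finset.sum_insert ha]
    have h1 := Real.rpow_add_le_add_rpow (hf a) (Finset.sum_nonneg fun i _ => hf i) hg0.le hg1
      (b := ∑ i ∈ s, f i)
    linarith

theorem mem_PQ' {n D : ℕ} {p : ℕ × ℕ} (hp : p ∈ PQ n D) :
    p.1 < n ∧ p.1 < p.2 ∧ p.2 + 1 ≤ p.1 + D := by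
  simp only [PQ, Finset.mem_filter, Finset.mem_product, Finset.mem_range] at hp
  exact ⟨hp.1.1, hp.2.1, hp.2.2⟩

theorem PQ_card (n D : ℕ) : ((PQ n D).card : ℝ) ≤ (n : ℝ) * D := by
  have h1 : (PQ n D).card ≤ (Finset.range n ×ˢ Finset.range D).card := by
    apply Finset.card_le_card_of_injOn (fun p => (p.1, p.2 - p.1))
    · intro p hp
      have := mem_PQ' (Finset.mem_coe.1 hp)
      simp only [Finset.coe_product, Finset.coe_range, Set.mem_prod, Set.mem_Iio]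
      omega
    · intro p hp q hq hpq
      have h2 := mem_PQ' (Finset.mem_coe.1 hp)
      have h3 := mem_PQ' (Finset.mem_coe.1 hq)
      simp only [Prod.mk.injEq] at hpq
      ext <;> omega
  rw [Finset.card_product, Finset.card_range, Finset.card_range] at h1
  exact_mod_cast h1

theorem cc_bounds {r ϑ : ℝ} (h0 : 0 < r) (h1 : r ≤ 1 / 64) (hϑ : 0 < ϑ) :
    0 < cc r ϑ ∧ cc r ϑ ≤ 2 := by
  unfold cc
  have h2 : Real.exp (-(3 * ϑ ^ (1 / 4 : ℝ))) ≤ 1 := by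
    rw [Real.exp_le_one_iff]
    have := Real.rpow_nonneg hϑ.le (1 / 4)
    linarith
  have h3 := Real.exp_pos (-(3 * ϑ ^ (1 / 4 : ℝ)))
  constructor
  · apply mul_pos _ h3
    linarith
  · nlinarith

theorem WX_le {K : PMF ℕ} {k q n D : ℕ} {r ϑ : ℝ} (hcc : 0 ≤ cc r ϑ) (x : ℕ → ℝ) :
    0 ≤ WX K k q r ϑ n D x ∧
      WX K k q r ϑ n D x ≤ ∑ p ∈ PQ n D, cc r ϑ * Real.exp (cX k ϑ x p.1 p.2) := by
  classical
  unfold WX
  constructor
  · refine Finset.sum_nonneg fun p _ => ?_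
    split_ifs
    · positivity
    · exact le_rfl
  · refine Finset.sum_le_sum fun p _ => ?_
    split_ifs
    · exact le_rfl
    · positivity

theorem wX_le {K : PMF ℕ} {k q n D J : ℕ} {r ϑ β : ℝ} (hcc : 0 ≤ cc r ϑ) (x : ℕ → ℝ) :
    0 ≤ wX K k q r ϑ β n D J x ∧
      wX K k q r ϑ β n D J x ≤ ∑ p ∈ PQ n D, cc r ϑ * Real.exp (cX k ϑ x p.1 p.2) := by
  classical
  obtain ⟨h1, h2⟩ := WX_le (K := K) (k := k) (q := q) (n := n) (D := D) hcc x
  unfold wX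
  split_ifs
  · exact ⟨h1, h2⟩
  · exact ⟨le_rfl, h1.trans h2⟩

/-- MUX -/
theorem pf_MUX (hTLQ : Pool.Agent.H98.SLN.T_TLQ) (hYSM : T_YSM) (hMGL : T_MGL)
    (hWXD : T_WXD) : T_MUX := by
  intro K ν α c δ r ϑ ε τ β ζ η k q n R D J h
  have hRG := h.rx.rg
  have hprob := h.lm.eg.prob
  have hk : 1 ≤ k := (hTLQ K α c δ k q hRG).1
  have hϑ1 : ϑ ≤ 1 := h.ϑ1.trans (by norm_num)
  set g : ℝ := 1 / (1 + α) with hg
  obtain ⟨hg1, hg2, hg3⟩ := gam_bounds hRG.δ0 hRG.δ1 hRG.α0 hRG.α1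
  rw [← hg] at hg1 hg2 hg3
  have hg0 : 0 < g := by linarith
  have hδ1 : δ ≤ 1 := hRG.δ1.trans (by norm_num)
  have hδ2 : δ ≤ 1 / 4 := hRG.δ1.trans (by norm_num)
  have h2g : 2 / (1 + α) = 2 * g := by rw [hg]; ring
  rw [h2g]
  obtain ⟨-, hM1, hM2, -⟩ := hMGL ν k ϑ ε τ h.lm.eg hk h.ϑ0 h.ε0 g δ hRG.δ0.le hδ2 hg1 hg2
  have hmw : Measurable (wX K k q r ϑ β n D J) :=
    (hWXD K α c δ r ϑ β k q h.rx h.kr h.r1 h.ϑ0 h.ϑ1 h.β0 n D J h.D2).1
  obtain ⟨hc0, hc2⟩ := cc_bounds h.rx.r0 h.r1 h.ϑ0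
  set P := PQ n D with hP
  have hcard : ((P.card : ℕ) : ℝ) ≤ (n : ℝ) * D := PQ_card n D
  have hn0 : (0 : ℝ) ≤ n := Nat.cast_nonneg _
  have hD0 : (0 : ℝ) ≤ D := Nat.cast_nonneg _
  have hmo : ∀ u, 0 ≤ Mo (rl ν k ϑ) u := fun u => integral_nonneg fun _ => (Real.exp_pos _).le
  -- exponentials
  have hexp : ∀ (u : ℝ) (p : ℕ × ℕ),
      Integrable (fun x : ℕ → ℝ => (cc r ϑ * Real.exp (cX k ϑ x p.1 p.2)) ^ u) (iid ν) ∧
      ∫ x : ℕ → ℝ, (cc r ϑ * Real.exp (cX k ϑ x p.1 p.2)) ^ u ∂(iid ν) =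
        cc r ϑ ^ u * Mo (rl ν k ϑ) u ^ (p.2 + 1 - p.1) := by
    intro u p
    obtain ⟨h1, h2⟩ := exp_cX hYSM ν h.lm.eg.exp hk ϑ u p.1 p.2
    have h3 : (fun x : ℕ → ℝ => (cc r ϑ * Real.exp (cX k ϑ x p.1 p.2)) ^ u) =
        fun x => cc r ϑ ^ u * Real.exp (u * cX k ϑ x p.1 p.2) := by
      funext x
      rw [Real.mul_rpow hc0.le (Real.exp_pos _).le, ← Real.exp_mul, mul_comm (cX _ _ _ _ _)]
    rw [h3]
    exact ⟨h1.const_mul _, by rw [integral_const_mul, h2]⟩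
  have hf0 : ∀ (x : ℕ → ℝ) (p : ℕ × ℕ), 0 ≤ cc r ϑ * Real.exp (cX k ϑ x p.1 p.2) := fun x p =>
    mul_nonneg hc0.le (Real.exp_pos _).le
  -- pointwise bounds
  have b1 : ∀ x, wX K k q r ϑ β n D J x ^ g ≤
      ∑ p ∈ P, (cc r ϑ * Real.exp (cX k ϑ x p.1 p.2)) ^ g := fun x =>
    (Real.rpow_le_rpow (wX_le hc0.le x).1 (wX_le hc0.le x).2 hg0.le).trans
      (sum_rpow_le' P _ (hf0 x) hg0 hg3)
  have b2 : ∀ x, wX K k q r ϑ β n D J x ^ (2 * g) ≤
      ((P.card : ℕ) : ℝ) ^ (2 * g - 1) *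
        ∑ p ∈ P, (cc r ϑ * Real.exp (cX k ϑ x p.1 p.2)) ^ (2 * g) := by
    intro x
    have h1 := Real.rpow_le_rpow (wX_le (K := K) (k := k) (q := q) (n := n) (D := D) (J := J)
      (β := β) hc0.le x).1 (wX_le hc0.le x).2 (by linarith : (0 : ℝ) ≤ 2 * g)
    have h2 := Real.rpow_sum_le_const_mul_sum_rpow_of_nonneg (s := P)
      (f := fun p => cc r ϑ * Real.exp (cX k ϑ x p.1 p.2)) (by linarith : 1 ≤ 2 * g)
      (fun p _ => hf0 x p)
    exact h1.trans h2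
  have i1 : Integrable (fun x : ℕ → ℝ =>
      ∑ p ∈ P, (cc r ϑ * Real.exp (cX k ϑ x p.1 p.2)) ^ g) (iid ν) :=
    integrable_finsetSum _ fun p _ => (hexp g p).1
  have i2 : Integrable (fun x : ℕ → ℝ => ((P.card : ℕ) : ℝ) ^ (2 * g - 1) *
      ∑ p ∈ P, (cc r ϑ * Real.exp (cX k ϑ x p.1 p.2)) ^ (2 * g)) (iid ν) :=
    (integrable_finsetSum _ fun p _ => (hexp (2 * g) p).1).const_mul _
  have j1 : Integrable (fun x => wX K k q r ϑ β n D J x ^ g) (iid ν) := by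
    refine i1.mono' (hmw.pow_const g).aestronglyMeasurable
      (Filter.Eventually.of_forall fun x => ?_)
    rw [Real.norm_eq_abs, abs_of_nonneg (Real.rpow_nonneg (wX_le hc0.le x).1 _)]
    exact b1 x
  have j2 : Integrable (fun x => wX K k q r ϑ β n D J x ^ (2 * g)) (iid ν) := by
    refine i2.mono' (hmw.pow_const (2 * g)).aestronglyMeasurable
      (Filter.Eventually.of_forall fun x => ?_)
    rw [Real.norm_eq_abs, abs_of_nonneg (Real.rpow_nonneg (wX_le hc0.le x).1 _)]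
    exact b2 x
  refine ⟨j1, j2, ?_, ?_⟩
  · refine (integral_mono j1 i1 b1).trans ?_
    rw [integral_finsetSum _ fun p _ => (hexp g p).1]
    have h1 : ∑ p ∈ P, ∫ x : ℕ → ℝ, (cc r ϑ * Real.exp (cX k ϑ x p.1 p.2)) ^ g ∂(iid ν) ≤
        ∑ p ∈ P, (4 : ℝ) := by
      refine Finset.sum_le_sum fun p hp => ?_
      rw [(hexp g p).2]
      have hpD : ((p.2 + 1 - p.1 : ℕ) : ℝ) ≤ D := by
        have := mem_PQ' hp
        exact_mod_cast (by omega : p.2 + 1 - p.1 ≤ D)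
      have h3 : cc r ϑ ^ g ≤ 2 := by
        calc cc r ϑ ^ g ≤ 2 ^ g := Real.rpow_le_rpow hc0.le hc2 hg0.le
          _ ≤ 2 ^ (1 : ℝ) := Real.rpow_le_rpow_of_exponent_le (by norm_num) hg3
          _ = 2 := Real.rpow_one _
      have h4 : Mo (rl ν k ϑ) g ^ (p.2 + 1 - p.1) ≤ 2 := by
        have hs : δ ≤ Real.sqrt δ := by
          rw [Real.le_sqrt' hRG.δ0]
          nlinarith [hRG.δ0]
        have h5 : ϑ * δ ≤ Real.sqrt δ := by
          have := hRG.δ0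
          nlinarith [h.ϑ0]
        have h6 : 0 ≤ ϑ * δ + τ := by
          have := mul_pos h.ϑ0 hRG.δ0
          linarith [h.τ0]
        calc Mo (rl ν k ϑ) g ^ (p.2 + 1 - p.1) ≤
              Real.exp (ϑ * δ + τ) ^ (p.2 + 1 - p.1) := pow_le_pow_left₀ (hmo _) hM1 _
          _ = Real.exp (((p.2 + 1 - p.1 : ℕ) : ℝ) * (ϑ * δ + τ)) := by
              rw [← Real.exp_nat_mul]
          _ ≤ Real.exp (ϑ / 32) := by
              apply Real.exp_le_exp.2
              calc ((p.2 + 1 - p.1 : ℕ) : ℝ) * (ϑ * δ + τ) ≤ D * (ϑ * δ + τ) :=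
                    mul_le_mul_of_nonneg_right hpD h6
                _ ≤ D * (τ + Real.sqrt δ) :=
                    mul_le_mul_of_nonneg_left (by linarith) hD0
                _ ≤ ϑ / 32 := h.D3
          _ ≤ Real.exp (1 / 2) := Real.exp_le_exp.2 (by linarith)
          _ ≤ 2 := by
              have h7 := Real.exp_one_lt_d9
              have h8 : Real.exp (1 / 2) ^ 2 = Real.exp 1 := by
                rw [← Real.exp_nat_mul]
                norm_num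
              nlinarith [Real.exp_pos (1 / 2 : ℝ)]
      have h5 : 0 ≤ Mo (rl ν k ϑ) g ^ (p.2 + 1 - p.1) := pow_nonneg (hmo _) _
      nlinarith [Real.rpow_nonneg hc0.le g]
    refine h1.trans ?_
    rw [Finset.sum_const, nsmul_eq_mul]
    nlinarith
  · refine (integral_mono j2 i2 b2).trans ?_
    rw [integral_const_mul, integral_finsetSum _ fun p _ => (hexp (2 * g) p).1]
    have h1 : ∑ p ∈ P, ∫ x : ℕ → ℝ, (cc r ϑ * Real.exp (cX k ϑ x p.1 p.2)) ^ (2 * g) ∂(iid ν) ≤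
        ∑ p ∈ P, 4 * Real.exp D := by
      refine Finset.sum_le_sum fun p hp => ?_
      rw [(hexp (2 * g) p).2]
      have hpD : p.2 + 1 - p.1 ≤ D := by
        have := mem_PQ' hp
        omega
      have h3 : cc r ϑ ^ (2 * g) ≤ 4 := by
        calc cc r ϑ ^ (2 * g) ≤ 2 ^ (2 * g) := Real.rpow_le_rpow hc0.le hc2 (by linarith)
          _ ≤ 2 ^ (2 : ℝ) := Real.rpow_le_rpow_of_exponent_le (by norm_num) (by linarith)
          _ = 4 := by norm_num
      have h4 : Mo (rl ν k ϑ) (2 * g) ^ (p.2 + 1 - p.1) ≤ Real.exp D := by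
        calc Mo (rl ν k ϑ) (2 * g) ^ (p.2 + 1 - p.1) ≤ Real.exp 1 ^ (p.2 + 1 - p.1) := by
              apply pow_le_pow_left₀ (hmo _)
              refine hM2.trans (Real.exp_le_exp.2 ?_)
              have := h.τ1
              nlinarith [h.ϑ0]
          _ ≤ Real.exp 1 ^ D := pow_le_pow_right₀ (Real.one_le_exp zero_le_one) hpD
          _ = Real.exp D := by rw [← Real.exp_nat_mul, mul_one]
      exact mul_le_mul h3 h4 (pow_nonneg (hmo _) _) (by norm_num)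
    have h2 : ((P.card : ℕ) : ℝ) ^ (2 * g - 1) * ((P.card : ℕ) : ℝ) ≤ ((n : ℝ) * D) ^ 2 := by
      rcases Nat.eq_zero_or_pos P.card with h0 | h0
      · rw [h0, Nat.cast_zero, mul_zero]
        positivity
      · have h1' : (1 : ℝ) ≤ ((P.card : ℕ) : ℝ) := by exact_mod_cast h0
        have h3 : ((P.card : ℕ) : ℝ) ^ (2 * g - 1) ≤ ((P.card : ℕ) : ℝ) := by
          calc ((P.card : ℕ) : ℝ) ^ (2 * g - 1) ≤ ((P.card : ℕ) : ℝ) ^ (1 : ℝ) :=
                Real.rpow_le_rpow_of_exponent_le h1' (by linarith)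
            _ = _ := Real.rpow_one _
        nlinarith
    calc ((P.card : ℕ) : ℝ) ^ (2 * g - 1) *
          ∑ p ∈ P, ∫ x : ℕ → ℝ, (cc r ϑ * Real.exp (cX k ϑ x p.1 p.2)) ^ (2 * g) ∂(iid ν) ≤
          ((P.card : ℕ) : ℝ) ^ (2 * g - 1) * ∑ p ∈ P, 4 * Real.exp D :=
          mul_le_mul_of_nonneg_left h1 (Real.rpow_nonneg (Nat.cast_nonneg _) _)
      _ = (((P.card : ℕ) : ℝ) ^ (2 * g - 1) * ((P.card : ℕ) : ℝ)) * (4 * Real.exp D) := by
          rw [Finset.sum_const, nsmul_eq_mul]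
          ring
      _ ≤ ((n : ℝ) * D) ^ 2 * (4 * Real.exp D) :=
          mul_le_mul_of_nonneg_right h2 (by positivity)
      _ = 4 * ((n : ℝ) * D) ^ 2 * Real.exp D := by ring

end Pool.Agent.H95.EXL
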